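import Pool.Agent.Helper868.DHJ

/-!
# Dilated patterns in dense subsets of sumsets, from density Hales-Jewett
-/

set_option autoImplicit false

namespace Pool.Agent.N743.DP

open Finset Function
open Pool.Agent.Helper868.DHJ (DensityHJ LineFree pt dens ind av density_hales_jewett)

/-- the sums `∑ x_j d_j`, `x_j ≤ T` -/
noncomputable def box {m : ℕ} (d : Fin m → ℕ) (T : ℕ) : Finset ℕ := by
  classical
  exact (univ : Finset (Fin m → Fin (T + 1))).image (fun x => ∑ j, (x j : ℕ) * d j)

theorem mem_box {m : ℕ} (d : Fin m → ℕ) (T u : ℕ) :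
    u ∈ box d T ↔ ∃ x : Fin m → ℕ, (∀ j, x j ≤ T) ∧ u = ∑ j, x j * d j := by
  classical
  unfold box
  rw [mem_image]
  constructor
  · rintro ⟨x, -, rfl⟩
    exact ⟨fun j => x j, fun j => Nat.lt_succ_iff.1 (x j).2, rfl⟩
  · rintro ⟨x, hx, rfl⟩
    exact ⟨fun j => ⟨x j, Nat.lt_succ_iff.2 (hx j)⟩, mem_univ _, rfl⟩

theorem box_card_le {m : ℕ} (d : Fin m → ℕ) (T : ℕ) : (box d T).card ≤ (T + 1) ^ m := by
  classical
  unfold box
  refine card_image_le.trans ?_
  rw [card_univ, Fintype.card_fun, Fintype.card_fin, Fintype.card_fin]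

theorem box_card_pos {m : ℕ} (d : Fin m → ℕ) (T : ℕ) : 0 < (box d T).card := by
  refine card_pos.2 ⟨0, (mem_box d T 0).2 ⟨fun _ => 0, fun _ => Nat.zero_le _, by simp⟩⟩

theorem box_mono {m : ℕ} (d : Fin m → ℕ) {T T' : ℕ} (h : T ≤ T') : box d T ⊆ box d T' := by
  intro u hu
  obtain ⟨x, hx, hxu⟩ := (mem_box d T u).1 hu
  exact (mem_box d T' u).2 ⟨x, fun j => (hx j).trans h, hxu⟩

/-- the shift of a letter -/
def dl {m : ℕ} (d : Fin m → ℕ) : Option (Fin m) → ℕ := fun o => o.elim 0 d

theorem sum_dl {m N : ℕ} (d : Fin m → ℕ) (x : Fin N → Option (Fin m)) :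
    ∑ t, dl d (x t) = ∑ j, (univ.filter fun t => x t = some j).card * d j := by
  classical
  simp only [card_filter, sum_mul]
  rw [sum_comm]
  refine sum_congr rfl fun t _ => ?_
  cases h : x t with
  | none => simp [dl]
  | some i => simp [dl]

/-- polynomials against exponentials -/
theorem growth (N m : ℕ) : ∃ I : ℕ, 1 ≤ I ∧ ((N * I + 1 : ℕ) : ℝ) ^ m ≤ (9 / 8 : ℝ) ^ I := by
  have h1 : Filter.Tendsto (fun n : ℕ => (n : ℝ) ^ m / (9 / 8 : ℝ) ^ n) Filter.atTop (nhds 0) :=
    tendsto_pow_const_div_const_pow_of_one_lt m (by norm_num)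
  have h2 : (0 : ℝ) < 1 / ((N : ℝ) + 1) ^ m := by positivity
  obtain ⟨I, hI⟩ := ((h1.eventually_lt_const h2).and (Filter.eventually_ge_atTop 1)).exists
  refine ⟨I, hI.2, ?_⟩
  have h3 : (0 : ℝ) < (9 / 8 : ℝ) ^ I := by positivity
  have h4 := hI.1
  rw [div_lt_div_iff₀ h3 (by positivity), one_mul] at h4
  have h5 : ((N * I + 1 : ℕ) : ℝ) ≤ I * ((N : ℝ) + 1) := by
    have h6 : (1 : ℝ) ≤ I := by exact_mod_cast hI.2
    push_cast
    nlinarith
  calc ((N * I + 1 : ℕ) : ℝ) ^ m ≤ (I * ((N : ℝ) + 1)) ^ m := pow_le_pow_left₀ (by positivity) h5 m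
    _ = (I : ℝ) ^ m * ((N : ℝ) + 1) ^ m := mul_pow _ _ _
    _ ≤ _ := h4.le

theorem line_sum {m N : ℕ} (d : Fin m → ℕ) (u : Fin N → Option (Option (Fin m))) :
    ∃ a0 : ℕ, ∀ b : Option (Fin m), ∑ t, dl d (pt u b t) =
      a0 + (univ.filter fun t => u t = none).card * dl d b := by
  classical
  refine ⟨∑ t ∈ univ.filter (fun t => ¬ u t = none), dl d ((u t).getD none), fun b => ?_⟩
  rw [← sum_filter_add_sum_filter_not univ (fun t => u t = none), add_comm]
  congr 1
  · apply sum_congr rfl
    intro t ht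
    have ht' := (mem_filter.1 ht).2
    unfold pt
    cases hut : u t with
    | none => exact absurd hut ht'
    | some c => rfl
  · rw [sum_congr rfl (g := fun _ => dl d b)]
    · rw [sum_const, smul_eq_mul]
    · intro t ht
      unfold pt
      rw [(mem_filter.1 ht).2]
      rfl

/-- **Dilated patterns.** -/
theorem comb (m : ℕ) : ∃ n T₁ : ℕ, 1 ≤ n ∧ ∀ d : Fin m → ℕ, ∃ T ≤ T₁,
    ∀ S ⊆ box d T, (1 / 4 : ℝ) * (box d T).card ≤ S.card →
      ∃ b r : ℕ, 1 ≤ r ∧ r ≤ n ∧ b ∈ S ∧ ∀ i, b + r * d i ∈ S := by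
  classical
  obtain ⟨N, hN⟩ := density_hales_jewett (Option (Fin m)) (1 / 8) (by norm_num)
  obtain ⟨I, hI1, hI⟩ := growth N m
  refine ⟨N + 1, N * I, by omega, fun d => ?_⟩
  -- a slow step
  obtain ⟨i, hi, hgr⟩ : ∃ i < I, ((box d (N * (i + 1))).card : ℝ) ≤ 9 / 8 * (box d (N * i)).card := by
    by_contra hcon
    push Not at hcon
    have h1 : ∀ i ≤ I, (9 / 8 : ℝ) ^ i ≤ (box d (N * i)).card := by
      intro i
      induction i with
      | zero =>
        intro _
        have := box_card_pos d (N * 0)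
        simp only [pow_zero]
        exact_mod_cast this
      | succ i ih =>
        intro hi
        have h2 := ih (by omega)
        have h3 := hcon i (by omega)
        rw [pow_succ]
        linarith
    obtain ⟨J, rfl⟩ : ∃ J, I = J + 1 := ⟨I - 1, by omega⟩
    have h2 := h1 J (by omega)
    have h3 := hcon J (by omega)
    have h4 : ((box d (N * (J + 1))).card : ℝ) ≤ ((N * (J + 1) + 1 : ℕ) : ℝ) ^ m := by
      exact_mod_cast box_card_le d (N * (J + 1))
    rw [pow_succ] at hI
    linarith
  refine ⟨N * (i + 1), Nat.mul_le_mul_left _ (by omega), fun S hS hSc => ?_⟩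
  set X := Fin N → Option (Fin m)
  have hX : (0 : ℝ) < Fintype.card X := by exact_mod_cast Fintype.card_pos
  set s : X → ℕ := fun x => ∑ t, dl d (x t) with hs
  have hU0 : (0 : ℝ) < (box d (N * i)).card := by exact_mod_cast box_card_pos d (N * i)
  -- shifts stay in the large box
  have hstay : ∀ y ∈ box d (N * i), ∀ x : X, y + s x ∈ box d (N * (i + 1)) := by
    intro y hy x
    obtain ⟨z, hz, rfl⟩ := (mem_box _ _ _).1 hy
    refine (mem_box _ _ _).2 ⟨fun j => z j + (univ.filter fun t => x t = some j).card, fun j => ?_, ?_⟩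
    · have h1 := hz j
      have h2 : (univ.filter fun t => x t = some j).card ≤ N := by
        refine (card_filter_le _ _).trans ?_
        simp
      calc z j + (univ.filter fun t => x t = some j).card ≤ N * i + N := Nat.add_le_add h1 h2
        _ = N * (i + 1) := by ring
    · rw [hs]
      simp only
      rw [sum_dl, ← sum_add_distrib]
      exact sum_congr rfl fun j _ => by ring
  -- many shifts hit
  have hcount : ∀ x : X, ((box d (N * i)).card : ℝ) / 8 ≤
      (((box d (N * i)).filter fun y => y + s x ∈ S).card : ℝ) := by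
    intro x
    have h1 : (box d (N * i)).card ≤ ((box d (N * i)).filter fun y => y + s x ∈ S).card +
        ((box d (N * (i + 1))) \ S).card := by
      rw [← card_filter_add_card_filter_not (s := box d (N * i)) (fun y => y + s x ∈ S)]
      refine Nat.add_le_add_left ?_ _
      refine card_le_card_of_injOn (fun y => y + s x) ?_ ?_
      · intro y hy
        rw [mem_coe, mem_filter] at hy
        rw [mem_coe, mem_sdiff]
        exact ⟨hstay y hy.1 x, hy.2⟩
      · intro y _ y' _ h
        simpa using h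
    have h2 : ((box d (N * (i + 1))) \ S).card + S.card = (box d (N * (i + 1))).card :=
      card_sdiff_add_card_eq_card hS
    have h3 : ((box d (N * i)).card : ℝ) ≤ (((box d (N * i)).filter fun y => y + s x ∈ S).card : ℝ) +
        (((box d (N * (i + 1))) \ S).card : ℝ) := by exact_mod_cast h1
    have h4 : ((((box d (N * (i + 1))) \ S).card : ℕ) : ℝ) + (S.card : ℝ) = ((box d (N * (i + 1))).card : ℝ) := by
      exact_mod_cast h2
    have h5 : ((box d (N * i)).card : ℝ) ≤ (box d (N * (i + 1))).card := by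
      exact_mod_cast card_le_card (box_mono d (Nat.mul_le_mul_left N (by omega)))
    linarith
  -- a translation with a line
  obtain ⟨y, hy, hline⟩ : ∃ y ∈ box d (N * i), ¬ LineFree {x : X | y + s x ∈ S} := by
    by_contra hcon
    push Not at hcon
    have h1 : ∀ y ∈ box d (N * i), ((univ.filter fun x : X => y + s x ∈ S).card : ℝ) <
        1 / 8 * Fintype.card X := by
      intro y hy
      have h2 := hN (Fin N) (by simp) _ (hcon y hy)
      unfold Pool.Agent.Helper868.DHJ.dens at h2
      rw [Pool.Agent.Helper868.DHJ.av_eq_sum, div_lt_iff₀ hX] at h2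
      refine lt_of_le_of_lt (le_of_eq ?_) h2
      rw [card_filter]
      push_cast
      apply sum_congr rfl
      intro x _
      by_cases hx : y + s x ∈ S
      · rw [if_pos hx, Pool.Agent.Helper868.DHJ.ind_mem (by exact hx)]
      · rw [if_neg hx, Pool.Agent.Helper868.DHJ.ind_not_mem (by exact hx)]
    have h3 : ∑ y ∈ box d (N * i), ((univ.filter fun x : X => y + s x ∈ S).card : ℝ) =
        ∑ x : X, (((box d (N * i)).filter fun y => y + s x ∈ S).card : ℝ) := by
      simp only [card_filter]
      push_cast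
      exact sum_comm
    have h4 : ∑ y ∈ box d (N * i), ((univ.filter fun x : X => y + s x ∈ S).card : ℝ) <
        (box d (N * i)).card * (1 / 8 * Fintype.card X) := by
      have h5 := sum_lt_sum_of_nonempty (card_pos.1 (box_card_pos d (N * i))) h1
      rwa [sum_const, nsmul_eq_mul] at h5
    have h6 : (Fintype.card X : ℝ) * ((box d (N * i)).card / 8) ≤
        ∑ x : X, (((box d (N * i)).filter fun y => y + s x ∈ S).card : ℝ) := by
      calc (Fintype.card X : ℝ) * ((box d (N * i)).card / 8) = ∑ _x : X, ((box d (N * i)).card : ℝ) / 8 := by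
            rw [sum_const, nsmul_eq_mul, card_univ]
        _ ≤ _ := sum_le_sum fun x _ => hcount x
    rw [h3] at h4
    linarith
  unfold LineFree at hline
  push Not at hline
  obtain ⟨u, ⟨e, he⟩, hu⟩ := hline
  obtain ⟨a0, ha0⟩ := line_sum d u
  have hr : 1 ≤ (univ.filter fun t => u t = none).card :=
    card_pos.2 ⟨e, mem_filter.2 ⟨mem_univ _, he⟩⟩
  have hrN : (univ.filter fun t => u t = none).card ≤ N := by
    refine (card_filter_le _ _).trans ?_
    simp
  refine ⟨y + a0, (univ.filter fun t => u t = none).card, hr, by omega, ?_, fun i => ?_⟩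
  · have h1 : y + s (pt u none) ∈ S := hu none
    rw [hs] at h1
    simp only at h1
    rw [ha0 none] at h1
    simpa [dl] using h1
  · have h1 : y + s (pt u (some i)) ∈ S := hu (some i)
    rw [hs] at h1
    simp only at h1
    rw [ha0 (some i), ← add_assoc] at h1
    exact h1

end Pool.Agent.N743.DP
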