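import Pool.Agent.N743.DP.Comb
import Pool.Agent.N743.MT.Pos

/-!
# Clusters of primes in dilated patterns
-/

set_option autoImplicit false

namespace Pool.Agent.N743.DP

open Finset Filter Topology
open Pool.Agent.N743.MT (Cluster positions)

theorem Cluster.mono {q a k C C' y : ℕ} (h : Cluster q a k C y) (hC : C ≤ C') : Cluster q a k C' y := by
  unfold Cluster at h ⊢
  refine h.trans (card_le_card (filter_subset_filter _ (Icc_subset_Icc_right (by omega))))

theorem Cluster.anti {q a k k' C y : ℕ} (h : Cluster q a k C y) (hk : k' ≤ k) : Cluster q a k' C y := by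
  unfold Cluster at h ⊢
  exact hk.trans h

open Classical in
/-- **Dilated patterns of clusters.** -/
theorem core (m : ℕ) : ∃ R : ℕ, 1 ≤ R ∧ ∀ k q a : ℕ, 1 ≤ q → a.Coprime q →
    ∃ C D R' : ℕ, 1 ≤ C ∧ 1 ≤ R' ∧ ∃ c : ℝ, 0 < c ∧ ∀ᶠ N : ℕ in atTop, ∀ d : Fin m → ℕ, (∀ i, C ∣ d i) →
      (∀ i, R' * d i ≤ N) → ∃ r b : ℕ, 1 ≤ r ∧ r ≤ R ∧ 2 * b ≤ N ∧
        c * (N / (Real.log N) ^ D) ≤ (((Icc 1 N).filter (fun n : ℕ => (N : ℝ) / 16 ≤ n ∧
          Cluster q a k C (q * n + a + b) ∧
          ∀ i, Cluster q a k C (q * n + a + b + r * d i))).card : ℝ) := by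
  obtain ⟨n, T₁, hn, hcomb⟩ := comb m
  refine ⟨n, hn, fun k q a hq ha => ?_⟩
  -- the constants for all numbers of positions
  have hpos : ∀ Tp : ℕ, ∃ C D : ℕ, ∃ c : ℝ, 1 ≤ C ∧ 0 < c ∧ (1 ≤ Tp → ∀ᶠ N : ℕ in atTop, ∀ u : Fin Tp → ℕ,
      Function.Injective u → (∀ j, C ∣ u j) → (∀ j, 2 * u j ≤ N) → ∃ S : Finset (Fin Tp),
        (1 / 4 : ℝ) * Tp ≤ S.card ∧
        c * (N / (Real.log N) ^ D) ≤ (((Icc 1 N).filter (fun n : ℕ => (N : ℝ) / 16 ≤ n ∧
          ∀ j ∈ S, Cluster q a k C (q * n + a + u j))).card : ℝ)) := by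
    intro Tp
    rcases Nat.eq_zero_or_pos Tp with h | h
    · exact ⟨1, 0, 1, le_rfl, one_pos, fun h1 => absurd h1 (by omega)⟩
    · obtain ⟨C, D, hC, -, c, hc, h1⟩ := positions k Tp q a h hq ha (1 / 36) (by norm_num)
      refine ⟨C, D, c, hC, hc, fun _ => ?_⟩
      filter_upwards [h1] with N hN u hu huC huN
      obtain ⟨S, hS, hS2⟩ := hN u hu huC huN
      refine ⟨S, ?_, hS2⟩
      norm_num at hS ⊢
      linarith
  choose CC DD cc hCC hcc hposs using hpos
  set B := (T₁ + 1) ^ m with hB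
  set C := ∏ t ∈ range (B + 1), CC t with hC
  have hCdvd : ∀ t ≤ B, CC t ∣ C := fun t ht => dvd_prod_of_mem _ (mem_range.2 (by omega))
  have hC1 : 1 ≤ C := Nat.succ_le_of_lt (prod_pos fun t _ => Nat.lt_of_lt_of_le Nat.zero_lt_one (hCC t))
  have hCle : ∀ t ≤ B, CC t ≤ C := fun t ht => Nat.le_of_dvd hC1 (hCdvd t ht)
  set D := ∑ t ∈ range (B + 1), DD t with hD
  have hDle : ∀ t ≤ B, DD t ≤ D := fun t ht =>
    single_le_sum (f := DD) (fun _ _ => Nat.zero_le _) (mem_range.2 (by omega))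
  set c := ∏ t ∈ range (B + 1), min (cc t) 1 with hc
  have hc0 : 0 < c := prod_pos fun t _ => lt_min (hcc t) one_pos
  have hcle : ∀ t ≤ B, c ≤ cc t := by
    intro t ht
    have h1 : t ∈ range (B + 1) := mem_range.2 (by omega)
    rw [hc, ← mul_prod_erase _ _ h1]
    have h2 : ∏ x ∈ (range (B + 1)).erase t, min (cc x) 1 ≤ 1 :=
      prod_le_one (fun x _ => (lt_min (hcc x) one_pos).le) (fun x _ => min_le_right _ _)
    calc min (cc t) 1 * ∏ x ∈ (range (B + 1)).erase t, min (cc x) 1 ≤ min (cc t) 1 * 1 :=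
          mul_le_mul_of_nonneg_left h2 (lt_min (hcc t) one_pos).le
      _ ≤ cc t := by rw [mul_one]; exact min_le_left _ _
  refine ⟨C, D, 2 * m * T₁ + 1, hC1, by omega, c, hc0, ?_⟩
  have hall : ∀ᶠ N : ℕ in atTop, ∀ t ∈ range (B + 1), (1 ≤ t → ∀ u : Fin t → ℕ,
      Function.Injective u → (∀ j, CC t ∣ u j) → (∀ j, 2 * u j ≤ N) → ∃ S : Finset (Fin t),
        (1 / 4 : ℝ) * t ≤ S.card ∧
        cc t * (N / (Real.log N) ^ (DD t)) ≤ (((Icc 1 N).filter (fun n : ℕ => (N : ℝ) / 16 ≤ n ∧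
          ∀ j ∈ S, Cluster q a k (CC t) (q * n + a + u j))).card : ℝ)) := by
    rw [Filter.eventually_all_finset]
    intro t _
    by_cases ht : 1 ≤ t
    · filter_upwards [hposs t ht] with N hN _
      exact hN
    · exact Eventually.of_forall fun N h => absurd h ht
  filter_upwards [hall, eventually_ge_atTop 3] with N hN hN3 d hdC hdN
  obtain ⟨T, hT, hS⟩ := hcomb d
  set U := box d T with hU
  have hUB : U.card ≤ B := by
    refine (box_card_le d T).trans ?_
    rw [hB]
    exact Nat.pow_le_pow_left (by omega) _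
  have hU1 : 1 ≤ U.card := box_card_pos d T
  set u : Fin U.card → ℕ := fun j => U.orderEmbOfFin rfl j with hu
  have huU : ∀ j, u j ∈ U := fun j => U.orderEmbOfFin_mem rfl j
  have hinj : Function.Injective u := (U.orderEmbOfFin rfl).injective
  obtain ⟨S, hS1, hS2⟩ := hN U.card (mem_range.2 (by omega)) hU1 u hinj
    (fun j => by
      refine (hCdvd _ hUB).trans ?_
      obtain ⟨x, -, hx⟩ := (mem_box d T _).1 (huU j)
      rw [hx]
      exact dvd_sum fun i _ => Dvd.dvd.mul_left (hdC i) _)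
    (fun j => by
      obtain ⟨x, hx1, hx⟩ := (mem_box d T _).1 (huU j)
      rw [hx]
      rcases Nat.eq_zero_or_pos m with rfl | hm
      · simp
      · have h1 : ∀ i : Fin m, m * (2 * (x i * d i)) ≤ N := by
          intro i
          calc m * (2 * (x i * d i)) = (2 * m * x i) * d i := by ring
            _ ≤ (2 * m * T₁ + 1) * d i := by
              apply Nat.mul_le_mul_right
              have := Nat.mul_le_mul_left (2 * m) ((hx1 i).trans hT)
              omega
            _ ≤ N := hdN i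
        have h2 : ∑ i : Fin m, m * (2 * (x i * d i)) ≤ m * N := by
          refine (sum_le_sum fun i _ => h1 i).trans ?_
          simp
        rw [← mul_sum, ← mul_sum] at h2
        exact Nat.le_of_mul_le_mul_left h2 hm)
  obtain ⟨b, r, hr1, hr2, hb, hbr⟩ := hS (S.image u) (by
      intro y hy
      obtain ⟨j, -, rfl⟩ := mem_image.1 hy
      exact huU j) (by
      rw [card_image_of_injective _ hinj]
      exact hS1)
  have hbN : 2 * b ≤ N := by
    obtain ⟨j, hj, rfl⟩ := mem_image.1 hb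
    obtain ⟨x, hx1, hx⟩ := (mem_box d T _).1 (huU j)
    rw [hx]
    rcases Nat.eq_zero_or_pos m with h0 | hm
    · subst h0
      simp
    · have h1 : ∀ i : Fin m, m * (2 * (x i * d i)) ≤ N := by
        intro i
        calc m * (2 * (x i * d i)) = (2 * m * x i) * d i := by ring
          _ ≤ (2 * m * T₁ + 1) * d i := by
            apply Nat.mul_le_mul_right
            have := Nat.mul_le_mul_left (2 * m) ((hx1 i).trans hT)
            omega
          _ ≤ N := hdN i
      have h2 : ∑ i : Fin m, m * (2 * (x i * d i)) ≤ m * N := by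
        refine (sum_le_sum fun i _ => h1 i).trans ?_
        simp
      rw [← mul_sum, ← mul_sum] at h2
      exact Nat.le_of_mul_le_mul_left h2 hm
  refine ⟨r, b, hr1, hr2, hbN, ?_⟩
  have hlog : 1 ≤ Real.log N := by
    have h1 : (3 : ℝ) ≤ N := by exact_mod_cast hN3
    rw [Real.le_log_iff_exp_le (by linarith)]
    exact Real.exp_one_lt_three.le.trans h1
  calc c * (N / (Real.log N) ^ D) ≤ cc U.card * (N / (Real.log N) ^ (DD U.card)) := by
        have h1 : (Real.log N) ^ (DD U.card) ≤ (Real.log N) ^ D := pow_le_pow_right₀ hlog (hDle _ hUB)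
        have h2 : (0 : ℝ) < (Real.log N) ^ (DD U.card) := by positivity
        have h3 : (N : ℝ) / (Real.log N) ^ D ≤ N / (Real.log N) ^ (DD U.card) :=
          div_le_div_of_nonneg_left (Nat.cast_nonneg N) h2 h1
        have h4 : (0 : ℝ) ≤ (N : ℝ) / (Real.log N) ^ D := by positivity
        exact mul_le_mul (hcle _ hUB) h3 h4 (hcc _).le
    _ ≤ _ := hS2
    _ ≤ _ := by
      rw [Nat.cast_le]
      refine card_le_card fun n' hn' => ?_
      rw [mem_filter] at hn' ⊢
      refine ⟨hn'.1, hn'.2.1, ?_, fun i => ?_⟩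
      · obtain ⟨j, hj, rfl⟩ := mem_image.1 hb
        exact Cluster.mono (hn'.2.2 j hj) (hCle _ hUB)
      · obtain ⟨j, hj, hji⟩ := mem_image.1 (hbr i)
        have h1 := Cluster.mono (hn'.2.2 j hj) (hCle _ hUB)
        rw [hji, ← add_assoc] at h1
        exact h1

end Pool.Agent.N743.DP
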