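import Pool.Agent.N743.DP.Sqrt

/-!
# Square roots of clusters of primes: the limit
-/

set_option autoImplicit false

namespace Pool.Agent.N743.DP

open Finset Filter Topology
open Pool.Agent.N743.MT (Cluster positions)

theorem P.mono {m : ℕ} {q a : ℕ} {α : Fin m → ℝ} {k k' : ℕ} {δ δ' s s' A : ℝ} (h : P q a α k δ s)
    (hk : k' ≤ k) (hα : ∀ i, |α i| ≤ A) (hs : δ + |s - s'| * A ≤ δ') : P q a α k' δ' s' := by
  obtain ⟨C, hC⟩ := h
  refine ⟨C, hC.mono fun y hy => ⟨Cluster.anti hy.1 hk, fun i => ?_⟩⟩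
  obtain ⟨z, hz1, hz2⟩ := hy.2 i
  refine ⟨z, ?_, Cluster.anti hz2 hk⟩
  have h1 : Real.sqrt z - Real.sqrt y - s' * α i =
      (Real.sqrt z - Real.sqrt y - s * α i) + (s - s') * α i := by ring
  rw [h1]
  refine (abs_add_le _ _).trans (le_trans (add_le_add hz1 ?_) hs)
  rw [abs_mul]
  exact mul_le_mul_of_nonneg_left (hα i) (abs_nonneg _)

/-- one scale -/
theorem scale {m R : ℕ} (k q a : ℕ) (hq : 1 ≤ q) (α : Fin m → ℝ) (hα : ∀ i, 0 ≤ α i)
    (C D R' : ℕ) (hC : 1 ≤ C) (c : ℝ) (hc : 0 < c)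
    (hev : ∀ᶠ N : ℕ in atTop, ∀ d : Fin m → ℕ, (∀ i, C ∣ d i) →
      (∀ i, R' * d i ≤ N) → ∃ r b : ℕ, 1 ≤ r ∧ r ≤ R ∧ 2 * b ≤ N ∧
        c * (N / (Real.log N) ^ D) ≤ ((@Finset.filter _ (fun n : ℕ => (N : ℝ) / 16 ≤ n ∧
          Cluster q a k C (q * n + a + b) ∧
          ∀ i, Cluster q a k C (q * n + a + b + r * d i)) (Classical.decPred _) (Icc 1 N)).card : ℝ)) :
    ∃ K : ℝ, ∀ᶠ N : ℕ in atTop, ∃ (y : ℕ) (s : ℝ), (N : ℝ) / 16 ≤ y ∧ 1 / (6 * ((R : ℝ) + 1) * q) ≤ s ∧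
      s ≤ 6 * ((R : ℝ) + 1) * q ∧ Cluster q a k C y ∧
        ∀ i, ∃ z : ℕ, |Real.sqrt z - Real.sqrt y - s * α i| ≤ K * (2 / Real.sqrt N) ∧
          Cluster q a k C z := by
  classical
  set A : ℝ := ∑ i, α i with hA
  have hA0 : 0 ≤ A := sum_nonneg fun i _ => hα i
  have hαA : ∀ i, α i ≤ A := fun i => single_le_sum (f := α) (fun i _ => hα i) (mem_univ i)
  refine ⟨4 * (R : ℝ) ^ 2 * A ^ 2 + R * C, ?_⟩
  filter_upwards [hev, eventually_ge_atTop 3, eventually_ge_atTop a,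
    eventually_ge_atTop ⌈((R' : ℝ) * A) ^ 2⌉₊] with N hN hN3 hNa hNA
  have hNr : (0 : ℝ) < N := by exact_mod_cast (by omega : 0 < N)
  have hCr : (0 : ℝ) < C := by exact_mod_cast hC
  have hqr : (1 : ℝ) ≤ q := by exact_mod_cast hq
  have hRr : (0 : ℝ) ≤ R := Nat.cast_nonneg R
  set M := Real.sqrt N with hM
  have hM0 : 0 < M := Real.sqrt_pos.2 hNr
  have hMM : M * M = N := Real.mul_self_sqrt hNr.le
  set d : Fin m → ℕ := fun i => C * ⌊α i * M / C⌋₊ with hd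
  have hd1 : ∀ i, (d i : ℝ) ≤ α i * M := by
    intro i
    have h1 : ((⌊α i * M / C⌋₊ : ℕ) : ℝ) ≤ α i * M / C :=
      Nat.floor_le (div_nonneg (mul_nonneg (hα i) hM0.le) hCr.le)
    rw [hd]
    push_cast
    rw [le_div_iff₀ hCr] at h1
    linarith
  have hd2 : ∀ i, α i * M - C ≤ (d i : ℝ) := by
    intro i
    have h1 : α i * M / C < ((⌊α i * M / C⌋₊ : ℕ) : ℝ) + 1 := Nat.lt_floor_add_one _
    rw [div_lt_iff₀ hCr] at h1
    rw [hd]
    push_cast
    linarith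
  have hRN : ∀ i, R' * d i ≤ N := by
    intro i
    have h1 : ((R' : ℝ) * A) ^ 2 ≤ N := (Nat.le_ceil _).trans (by exact_mod_cast hNA)
    have h2 : (R' : ℝ) * A ≤ M := by
      rw [hM]
      exact Real.le_sqrt_of_sq_le h1
    have h3 : (R' : ℝ) * d i ≤ N := by
      calc (R' : ℝ) * d i ≤ R' * (A * M) := by
            refine mul_le_mul_of_nonneg_left ?_ (Nat.cast_nonneg _)
            exact (hd1 i).trans (mul_le_mul_of_nonneg_right (hαA i) hM0.le)
        _ = (R' * A) * M := by ring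
        _ ≤ M * M := mul_le_mul_of_nonneg_right h2 hM0.le
        _ = N := hMM
    exact_mod_cast h3
  obtain ⟨r, b, hr1, hr2, hb, hcard⟩ := hN d (fun i => ⟨_, rfl⟩) hRN
  have hlog : 0 < Real.log N := Real.log_pos (by exact_mod_cast (by omega : 1 < N))
  have hpos : (0 : ℝ) < ((@Finset.filter _ (fun n : ℕ => (N : ℝ) / 16 ≤ n ∧
          Cluster q a k C (q * n + a + b) ∧
          ∀ i, Cluster q a k C (q * n + a + b + r * d i)) (Classical.decPred _) (Icc 1 N)).card : ℝ) :=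
    lt_of_lt_of_le (by positivity) hcard
  obtain ⟨n, hn⟩ := Finset.card_pos.1 (by exact_mod_cast hpos)
  rw [mem_filter, mem_Icc] at hn
  obtain ⟨⟨hn1, hn2⟩, hn3, hn4, hn5⟩ := hn
  have hr1' : (1 : ℝ) ≤ r := by exact_mod_cast hr1
  have hr2' : (r : ℝ) ≤ R := by exact_mod_cast hr2
  set y := q * n + a + b with hy
  have hyn : n ≤ y := by
    rw [hy]
    have := Nat.le_mul_of_pos_left n (by omega : 0 < q)
    omega
  have hyl : (N : ℝ) / 16 ≤ y := hn3.trans (by exact_mod_cast hyn)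
  have hyu : y ≤ 3 * q * N := by
    rw [hy]
    have h1 : q * n ≤ q * N := Nat.mul_le_mul_left _ hn2
    have h2 : N ≤ q * N := Nat.le_mul_of_pos_left N (by omega : 0 < q)
    have h3 : 3 * q * N = q * N + q * N + q * N := by ring
    omega
  have hy0 : (0 : ℝ) < y := by linarith [div_pos hNr (show (0 : ℝ) < 16 by norm_num)]
  have hw0 : 0 < Real.sqrt y := Real.sqrt_pos.2 hy0
  have hMw : M ≤ 4 * Real.sqrt y := by
    have h2 : M ≤ Real.sqrt (16 * y) := Real.sqrt_le_sqrt (by linarith)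
    have h3 : Real.sqrt (16 * (y : ℝ)) = 4 * Real.sqrt y := by
      rw [Real.sqrt_mul (by norm_num), show (16 : ℝ) = 4 ^ 2 by norm_num, Real.sqrt_sq (by norm_num)]
    linarith
  have hwM : Real.sqrt y ≤ 3 * q * M := by
    have h1 : (y : ℝ) ≤ 3 * q * N := by exact_mod_cast hyu
    have h2 : (y : ℝ) ≤ (3 * q * M) ^ 2 := by
      have h3 : (3 * (q : ℝ) * M) ^ 2 = 9 * q ^ 2 * N := by rw [← hMM]; ring
      rw [h3]
      nlinarith
    calc Real.sqrt y ≤ Real.sqrt ((3 * q * M) ^ 2) := Real.sqrt_le_sqrt h2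
      _ = 3 * q * M := Real.sqrt_sq (by positivity)
  refine ⟨y, r * M / (2 * Real.sqrt y), hyl, ?_, ?_, hn4, fun i => ?_⟩
  · rw [div_le_div_iff₀ (by positivity) (by positivity), one_mul]
    have h1 : M ≤ r * M := by nlinarith
    have h2 : (r : ℝ) * M * (6 * ((R : ℝ) + 1) * q) ≥ M * (6 * q) := by
      have h3 : (6 : ℝ) * q ≤ 6 * ((R : ℝ) + 1) * q := by nlinarith
      have h4 : 0 ≤ (6 : ℝ) * q := by positivity
      calc M * (6 * q) ≤ (r * M) * (6 * q) := mul_le_mul_of_nonneg_right h1 h4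
        _ ≤ (r * M) * (6 * ((R : ℝ) + 1) * q) := mul_le_mul_of_nonneg_left h3 (by positivity)
    linarith
  · rw [div_le_iff₀ (by positivity)]
    have h1 : (r : ℝ) * M ≤ R * (4 * Real.sqrt y) := mul_le_mul hr2' hMw hM0.le hRr
    have h2 : (R : ℝ) * (4 * Real.sqrt y) ≤ 6 * ((R : ℝ) + 1) * q * (2 * Real.sqrt y) := by
      have h3 : (R : ℝ) * 4 ≤ 6 * ((R : ℝ) + 1) * q * 2 := by nlinarith
      nlinarith
    linarith
  · refine ⟨y + r * d i, ?_, hn5 i⟩
    have h1 := sqrt_est (y := y) (d := d i) (α := α i) (s0 := r * M / (2 * Real.sqrt y)) (r := r)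
      (N := N) (C := C) (R := R) hNr hyl (Nat.cast_nonneg _) (hα i) (hd1 i) (hd2 i) (by linarith) hr2' rfl
    push_cast
    refine h1.trans ?_
    refine mul_le_mul_of_nonneg_right ?_ (by positivity)
    have h2 : α i ^ 2 ≤ A ^ 2 := pow_le_pow_left₀ (hα i) (hαA i) 2
    have h3 : 4 * (R : ℝ) ^ 2 * α i ^ 2 ≤ 4 * (R : ℝ) ^ 2 * A ^ 2 :=
      mul_le_mul_of_nonneg_left h2 (by positivity)
    linarith

theorem lim (m : ℕ) : ∃ R : ℕ, 1 ≤ R ∧ ∀ q a : ℕ, 1 ≤ q → a.Coprime q →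
    ∀ α : Fin m → ℝ, (∀ i, 0 ≤ α i) → ∃ s : ℝ, 1 / ((R : ℝ) * q) ≤ s ∧ s ≤ R * q ∧
      ∀ (k : ℕ) (δ : ℝ), 0 < δ → P q a α k δ s := by
  classical
  obtain ⟨R, hR, hcore⟩ := core m
  refine ⟨6 * (R + 1), by omega, fun q a hq ha α hα => ?_⟩
  set A : ℝ := ∑ i, α i with hA
  have hA0 : 0 ≤ A := sum_nonneg fun i _ => hα i
  have hαA : ∀ i, |α i| ≤ A := fun i => by
    rw [abs_of_nonneg (hα i)]
    exact single_le_sum (f := α) (fun i _ => hα i) (mem_univ i)
  set lo : ℝ := 1 / (6 * ((R : ℝ) + 1) * q) with hlo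
  set hi : ℝ := 6 * ((R : ℝ) + 1) * q with hhi
  have h1 : ∀ k : ℕ, ∃ s ∈ Set.Icc lo hi, ∀ δ : ℝ, 0 < δ → P q a α k δ s := by
    intro k
    obtain ⟨C, D, R', hC, -, c, hc, hev⟩ := hcore k q a hq ha
    obtain ⟨K, hK⟩ := scale (R := R) k q a hq α hα C D R' hC c hc (by
      filter_upwards [hev] with N hN d hd1 hd2
      obtain ⟨r, b, h1, h2, h3, h4⟩ := hN d hd1 hd2
      refine ⟨r, b, h1, h2, h3, h4.trans (le_of_eq ?_)⟩
      congr!)
    obtain ⟨N0, hN0⟩ := eventually_atTop.1 hK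
    choose y s hy hs1 hs2 hcl hz using fun j : ℕ => hN0 (N0 + j) (by omega)
    obtain ⟨s', hs', φ, hφ, hlim⟩ := isCompact_Icc.tendsto_subseq (x := s) fun j => ⟨hs1 j, hs2 j⟩
    refine ⟨s', hs', fun δ hδ => ⟨C, ?_⟩⟩
    rw [frequently_atTop]
    intro Y
    have e1 : ∀ᶠ j in atTop, |s (φ j) - s'| * A ≤ δ / 2 := by
      have h2 : Tendsto (fun j => |s (φ j) - s'| * A) atTop (𝓝 0) := by
        have h3 : Tendsto (fun j => s (φ j) - s') atTop (𝓝 0) := by
          have := hlim.sub_const s'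
          simpa using this
        have h4 := (h3.abs).mul_const A
        simpa using h4
      exact h2.eventually_le_const (by linarith)
    have hcast : Tendsto (fun j => ((N0 + φ j : ℕ) : ℝ)) atTop atTop := by
      refine tendsto_natCast_atTop_atTop.comp ?_
      exact tendsto_atTop_mono (fun j => Nat.le_add_left _ _) hφ.tendsto_atTop
    have e2 : ∀ᶠ j in atTop, K * (2 / Real.sqrt ((N0 + φ j : ℕ) : ℝ)) ≤ δ / 2 := by
      have h2 : Tendsto (fun j => K * (2 / Real.sqrt ((N0 + φ j : ℕ) : ℝ))) atTop (𝓝 0) := by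
        have h3 : Tendsto (fun j => Real.sqrt ((N0 + φ j : ℕ) : ℝ)) atTop atTop :=
          Real.tendsto_sqrt_atTop.comp hcast
        have h4 : Tendsto (fun j => (2 : ℝ) / Real.sqrt ((N0 + φ j : ℕ) : ℝ)) atTop (𝓝 0) :=
          tendsto_const_nhds.div_atTop h3
        simpa using h4.const_mul K
      exact h2.eventually_le_const (by linarith)
    have e3 : ∀ᶠ j in atTop, (16 * Y : ℝ) ≤ ((N0 + φ j : ℕ) : ℝ) := hcast.eventually_ge_atTop _
    obtain ⟨j, h5, h6, h7⟩ := (e1.and (e2.and e3)).exists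
    refine ⟨y (φ j), ?_, hcl (φ j), fun i => ?_⟩
    · have h8 := hy (φ j)
      have h9 : (Y : ℝ) ≤ y (φ j) := by linarith
      exact_mod_cast h9
    · obtain ⟨z, hz1, hz2⟩ := hz (φ j) i
      refine ⟨z, ?_, hz2⟩
      have h10 : Real.sqrt z - Real.sqrt (y (φ j)) - s' * α i =
          (Real.sqrt z - Real.sqrt (y (φ j)) - s (φ j) * α i) + (s (φ j) - s') * α i := by ring
      rw [h10]
      refine (abs_add_le _ _).trans ?_
      have h11 : |(s (φ j) - s') * α i| ≤ |s (φ j) - s'| * A := by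
        rw [abs_mul]
        exact mul_le_mul_of_nonneg_left (hαA i) (abs_nonneg _)
      linarith
  choose s hs hP using h1
  obtain ⟨s', hs', φ, hφ, hlim⟩ := isCompact_Icc.tendsto_subseq (x := s) hs
  refine ⟨s', ?_, ?_, fun k δ hδ => ?_⟩
  · have := hs'.1
    rw [hlo] at this
    push_cast
    exact this
  · have := hs'.2
    rw [hhi] at this
    push_cast
    exact this
  have e1 : ∀ᶠ j in atTop, |s (φ j) - s'| * A ≤ δ / 2 := by
    have h2 : Tendsto (fun j => |s (φ j) - s'| * A) atTop (𝓝 0) := by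
      have h3 : Tendsto (fun j => s (φ j) - s') atTop (𝓝 0) := by
        have := hlim.sub_const s'
        simpa using this
      have h4 := (h3.abs).mul_const A
      simpa using h4
    exact h2.eventually_le_const (by linarith)
  obtain ⟨j, h5, h6⟩ := (e1.and (hφ.tendsto_atTop.eventually_ge_atTop k)).exists
  exact (hP (φ j) (δ / 2) (by linarith)).mono h6 hαA (by linarith)

end Pool.Agent.N743.DP
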