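import Pool.Agent.N743.DP.Comb
import Pool.Agent.N743.MT.Opp

/-!
# Dilated patterns of intervals with many clusters
-/

set_option autoImplicit false

namespace Pool.Agent.N743.DP

open Finset Filter
open Pool.Agent.N743.MT (Rich opp)

/-- dilated patterns in subsets of a long interval -/
theorem comb_interval (m : ℕ) : ∃ R : ℕ, 1 ≤ R ∧ ∀ d : Fin m → ℕ, ∃ l : ℕ, 1 ≤ l ∧ ∀ G ⊆ range l,
    5 * l ≤ 18 * G.card → ∃ b r : ℕ, 1 ≤ r ∧ r ≤ R ∧ b ∈ G ∧ ∀ i, b + r * d i ∈ G := by
  classical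
  obtain ⟨n, T₁, hn, hcomb⟩ := comb m
  refine ⟨n, hn, fun d => ?_⟩
  set V := T₁ * ∑ i, d i with hV
  refine ⟨36 * (V + 1), by omega, fun G hG hGc => ?_⟩
  obtain ⟨T, hT, hS⟩ := hcomb d
  set U := box d T with hU
  have hUV : ∀ u ∈ U, u ≤ V := by
    intro u hu
    obtain ⟨x, hx, rfl⟩ := (mem_box d T u).1 hu
    rw [hV, mul_sum]
    exact sum_le_sum fun j _ => Nat.mul_le_mul_right _ ((hx j).trans hT)
  have hU0 : (0 : ℝ) < U.card := by exact_mod_cast box_card_pos d T
  set l := 36 * (V + 1) with hl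
  -- a good translation
  obtain ⟨t, ht, htc⟩ : ∃ t ∈ range l, (1 / 4 : ℝ) * U.card ≤ ((U.filter fun u => t + u ∈ G).card : ℝ) := by
    by_contra hcon
    push Not at hcon
    have h1 : ∑ t ∈ range l, ((U.filter fun u => t + u ∈ G).card : ℝ) < l * ((1 / 4 : ℝ) * U.card) := by
      have h2 := sum_lt_sum_of_nonempty (s := range l) ⟨0, mem_range.2 (by omega)⟩ hcon
      rwa [sum_const, card_range, nsmul_eq_mul] at h2
    have h3 : ∑ t ∈ range l, ((U.filter fun u => t + u ∈ G).card : ℝ) =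
        ∑ u ∈ U, (((range l).filter fun t => t + u ∈ G).card : ℝ) := by
      simp only [card_filter]
      push_cast
      exact sum_comm
    have h4 : ∀ u ∈ U, (G.card : ℝ) - V ≤ (((range l).filter fun t => t + u ∈ G).card : ℝ) := by
      intro u hu
      have h5 : G ⊆ (((range l).filter fun t => t + u ∈ G).image fun t => t + u) ∪ range V := by
        intro g hg
        rw [mem_union, mem_image]
        by_cases hgV : g < V
        · exact Or.inr (mem_range.2 hgV)
        · left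
          have h6 := hUV u hu
          have h7 := mem_range.1 (hG hg)
          refine ⟨g - u, mem_filter.2 ⟨mem_range.2 (by omega), ?_⟩, by omega⟩
          rwa [Nat.sub_add_cancel (by omega)]
      have h8 : G.card ≤ ((range l).filter fun t => t + u ∈ G).card + V := by
        calc G.card ≤ _ := card_le_card h5
          _ ≤ _ := card_union_le _ _
          _ ≤ _ := Nat.add_le_add card_image_le (by rw [card_range])
      have h9 : (G.card : ℝ) ≤ (((range l).filter fun t => t + u ∈ G).card : ℝ) + V := by exact_mod_cast h8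
      linarith
    have h10 : (U.card : ℝ) * ((G.card : ℝ) - V) ≤ ∑ u ∈ U, (((range l).filter fun t => t + u ∈ G).card : ℝ) := by
      calc (U.card : ℝ) * ((G.card : ℝ) - V) = ∑ _u ∈ U, ((G.card : ℝ) - V) := by
            rw [sum_const, nsmul_eq_mul]
        _ ≤ _ := sum_le_sum h4
    rw [h3] at h1
    have h11 : (U.card : ℝ) * ((G.card : ℝ) - V) < U.card * (l / 4) := by
      calc _ ≤ _ := h10
        _ < l * ((1 / 4 : ℝ) * U.card) := h1
        _ = U.card * (l / 4) := by ring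
    have h12 := lt_of_mul_lt_mul_left h11 hU0.le
    have h13 : (5 : ℝ) * l ≤ 18 * G.card := by exact_mod_cast hGc
    have h14 : (l : ℝ) = 36 * (V + 1) := by rw [hl]; push_cast; ring
    rw [h14] at h12 h13
    linarith
  obtain ⟨b, r, hr1, hr2, hb, hbr⟩ := hS (U.filter fun u => t + u ∈ G) (filter_subset _ _) htc
  refine ⟨t + b, r, hr1, hr2, (mem_filter.1 hb).2, fun i => ?_⟩
  have h1 := (mem_filter.1 (hbr i)).2
  rwa [← add_assoc] at h1

theorem opp_pattern (m : ℕ) : ∃ R : ℕ, 1 ≤ R ∧ ∀ (k q a : ℕ) (d : Fin m → ℕ), 1 ≤ q → a.Coprime q →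
    ∃ C D : ℕ, ∃ c : ℝ, 0 < c ∧ ∀ᶠ N : ℕ in atTop, ∃ i r : ℕ, N ≤ i ∧ i ≤ 10 * q * N ∧ 1 ≤ r ∧ r ≤ R ∧
      Rich q a k C D c i ∧ ∀ j, Rich q a k C D c (i + r * d j) := by
  classical
  obtain ⟨R, hR, h⟩ := comb_interval m
  refine ⟨R, hR, fun k q a d hq ha => ?_⟩
  obtain ⟨l, hl, hG⟩ := h d
  obtain ⟨C, D, c, hc, hev⟩ := opp k l q a hl hq ha
  refine ⟨C, D, c, hc, ?_⟩
  filter_upwards [hev] with N hN
  obtain ⟨i, hi1, hi2, hi3⟩ := hN
  obtain ⟨b, r, hr1, hr2, hb, hbr⟩ := hG _ (filter_subset _ _) hi3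
  have hb' := mem_filter.1 hb
  have hbl := mem_range.1 hb'.1
  refine ⟨i + b, r, by omega, by omega, hr1, hr2, hb'.2, fun j => ?_⟩
  have h1 := (mem_filter.1 (hbr j)).2
  rwa [← add_assoc] at h1

end Pool.Agent.N743.DP
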