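import Pool.Agent.N743.DP.Core

/-!
# Square roots of clusters of primes: every direction
-/

set_option autoImplicit false

namespace Pool.Agent.N743.DP

open Finset Filter Topology
open Pool.Agent.N743.MT (Cluster positions)

/-- clusters at `y` and at `z i`, `√(z i) ≈ √y + s α i`, for infinitely many `y` -/
def P {m : ℕ} (q a : ℕ) (α : Fin m → ℝ) (k : ℕ) (δ s : ℝ) : Prop :=
  ∃ C : ℕ, ∃ᶠ y : ℕ in atTop, Cluster q a k C y ∧
    ∀ i, ∃ z : ℕ, |Real.sqrt z - Real.sqrt y - s * α i| ≤ δ ∧ Cluster q a k C z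

/-- the estimate for the square roots -/
theorem sqrt_est {y d α s0 r N C R : ℝ} (hN : 0 < N) (hy : N / 16 ≤ y) (hd0 : 0 ≤ d) (hα : 0 ≤ α)
    (hd1 : d ≤ α * Real.sqrt N) (hd2 : α * Real.sqrt N - C ≤ d) (hr0 : 0 ≤ r) (hr : r ≤ R)
    (hs : s0 = r * Real.sqrt N / (2 * Real.sqrt y)) :
    |Real.sqrt (y + r * d) - Real.sqrt y - s0 * α| ≤ (4 * R ^ 2 * α ^ 2 + R * C) * (2 / Real.sqrt N) := by
  have hy0 : 0 < y := by linarith [div_pos hN (show (0 : ℝ) < 16 by norm_num)]
  set w := Real.sqrt y with hw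
  have hw0 : 0 < w := Real.sqrt_pos.2 hy0
  set M := Real.sqrt N with hM
  have hM0 : 0 < M := Real.sqrt_pos.2 hN
  have hMw : M ≤ 4 * w := by
    have h1 : N ≤ 16 * y := by linarith
    have h2 : M ≤ Real.sqrt (16 * y) := Real.sqrt_le_sqrt h1
    have h3 : Real.sqrt (16 * y) = 4 * w := by
      rw [Real.sqrt_mul (by norm_num), show (16 : ℝ) = 4 ^ 2 by norm_num, Real.sqrt_sq (by norm_num)]
    linarith
  set z := Real.sqrt (y + r * d) with hz
  have hrd : 0 ≤ r * d := mul_nonneg hr0 hd0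
  have hzz : z ^ 2 = w ^ 2 + r * d := by
    rw [hz, hw, Real.sq_sqrt (by linarith), Real.sq_sqrt hy0.le]
  have hzw : w ≤ z := Real.sqrt_le_sqrt (by linarith)
  have hR0 : 0 ≤ R := hr0.trans hr
  set t := z - w with ht
  have ht0 : 0 ≤ t := by linarith
  have heq : t * (2 * w + t) = r * d := by
    have : z = w + t := by rw [ht]; ring
    rw [this] at hzz
    nlinarith
  have ht1 : 2 * w * t ≤ r * d := by nlinarith
  -- `t ≤ 2 R α`
  have ht2 : t ≤ 2 * R * α := by
    have h1 : 2 * w * t ≤ R * (α * M) := ht1.trans (mul_le_mul hr hd1 hd0 hR0)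
    have h2 : R * (α * M) ≤ R * (α * (4 * w)) := by gcongr
    have h3 : 2 * w * t ≤ 2 * w * (2 * R * α) := by nlinarith
    exact le_of_mul_le_mul_left h3 (by positivity)
  have hs' : s0 * α = r * α * M / (2 * w) := by rw [hs]; ring
  have hup : t ≤ s0 * α := by
    rw [hs', le_div_iff₀ (by positivity)]
    have h1 : r * d ≤ r * (α * M) := mul_le_mul_of_nonneg_left hd1 hr0
    nlinarith
  have hlow : s0 * α - t ≤ (4 * R ^ 2 * α ^ 2 + R * C) * (2 / M) := by
    have hC : 0 ≤ C := by linarith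
    have h1 : 2 * w * (s0 * α - t) ≤ 4 * R ^ 2 * α ^ 2 + R * C := by
      have h2 : 2 * w * (s0 * α) = r * (α * M) := by
        rw [hs']
        field_simp
      have h3 : r * (α * M) - r * d ≤ R * C := by
        have h4 : α * M - d ≤ C := by linarith
        calc r * (α * M) - r * d = r * (α * M - d) := by ring
          _ ≤ r * C := mul_le_mul_of_nonneg_left h4 hr0
          _ ≤ R * C := mul_le_mul_of_nonneg_right hr hC
      have h5 : t ^ 2 ≤ 4 * R ^ 2 * α ^ 2 := by
        calc t ^ 2 ≤ (2 * R * α) ^ 2 := pow_le_pow_left₀ ht0 ht2 2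
          _ = _ := by ring
      have h6 : 2 * w * (s0 * α - t) = r * (α * M) - r * d + t ^ 2 := by
        rw [mul_sub, h2, ← heq]
        ring
      linarith
    have h7 : s0 * α - t ≤ (4 * R ^ 2 * α ^ 2 + R * C) / (2 * w) := by
      rw [le_div_iff₀ (by positivity)]
      linarith
    refine h7.trans ?_
    have h8 : 0 ≤ 4 * R ^ 2 * α ^ 2 + R * C := by positivity
    rw [div_eq_mul_inv]
    refine mul_le_mul_of_nonneg_left ?_ h8
    rw [inv_eq_one_div, div_le_div_iff₀ (by positivity) hM0]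
    linarith
  rw [abs_le]
  constructor
  · linarith
  · have h9 : 0 ≤ (4 * R ^ 2 * α ^ 2 + R * C) * (2 / M) := by linarith
    linarith

end Pool.Agent.N743.DP
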